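import Pool.Agent.Lib.MP_68c55c_lc.TrWC

set_option autoImplicit false

namespace Pool.Agent.Results.MP_68c55c_lc.OrbitShare

/-- Let `C` be a perfect 2-error-correcting code with at least two codewords over an alphabet whose
size `q` is not a prime power, and let `G` be any group of isometries of the Hamming space
(permutations of the coordinates together with permutations of the letters in each coordinate),
not assumed to preserve `C`. If for each codeword `c` with orbit `O` the number `|C|` divides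
`r * |C ∩ O|` and `|O|` divides `l * |C ∩ O|`, then `q + 25 ≤ 25 r ^ 4`, or else `q < l` and
`q ^ 3 < 900 (l r) ^ 2`. -/
theorem result (q n r l : ℕ) (h6 : 6 ≤ q) (hq : ¬ IsPrimePow q) (hr : 1 ≤ r) (hl : 1 ≤ l)
    (C : Finset (Fin n → Fin q)) (h2 : 2 ≤ C.card)
    (hC : ∀ x : Fin n → Fin q, ∃! c : Fin n → Fin q, c ∈ C ∧ hammingDist x c ≤ 2)
    (G : Subgroup (Equiv.Perm (Fin n → Fin q)))
    (hG : ∀ g ∈ G, ∃ (σ : Equiv.Perm (Fin n)) (π : Fin n → Equiv.Perm (Fin q)),
      ∀ z i, g z i = π i (z (σ i)))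
    (horb : ∀ c ∈ C, C.card ∣ r * ((C : Set (Fin n → Fin q)) ∩ MulAction.orbit G c).ncard)
    (hshare : ∀ c ∈ C, (MulAction.orbit G c).ncard ∣
      l * ((C : Set (Fin n → Fin q)) ∩ MulAction.orbit G c).ncard) :
    q + 25 ≤ 25 * r ^ 4 ∨ (q < l ∧ q ^ 3 < 900 * (l * r) ^ 2) :=
  Pool.Agent.Lib.MP_68c55c_lc.Tr.mainW C hC hq (by omega) h2 r l hr hl G hG horb hshare

end Pool.Agent.Results.MP_68c55c_lc.OrbitShare
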