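import Pool.Agent.Lib.MP_68c55c_lc.HalfD

set_option autoImplicit false

namespace Pool.Agent.Results.MP_68c55c_lc.SparseSizesHalf

/-- At most `O(X^(1/2+ε))` alphabet sizes `q ≤ X` admit a perfect 2-error-correcting code with at
least two codewords. -/
theorem result (ε : ℝ) (hε : 0 < ε) : ∃ K : ℝ, ∀ X : ℕ, 1 ≤ X →
    (({q : ℕ | q ≤ X ∧ ∃ (n : ℕ) (C : Finset (Fin n → Fin q)), 2 ≤ C.card ∧
      ∀ x : Fin n → Fin q, ∃! c : Fin n → Fin q, c ∈ C ∧ hammingDist x c ≤ 2}.ncard : ℕ) : ℝ) ≤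
      K * (X : ℝ) ^ (1 / 2 + ε) := by
  obtain ⟨K, hK⟩ := Pool.Agent.Lib.MP_68c55c_lc.Half.count_half hε
  refine ⟨K, fun X hX => ?_⟩
  have hfin : {q : ℕ | q ≤ X ∧ ∃ (n : ℕ) (C : Finset (Fin n → Fin q)), 2 ≤ C.card ∧
      ∀ x : Fin n → Fin q, ∃! c : Fin n → Fin q, c ∈ C ∧ hammingDist x c ≤ 2}.Finite :=
    (Set.finite_Iic X).subset fun q hq => hq.1
  rw [Set.ncard_eq_toFinset_card _ hfin]
  refine hK X hX _ fun q hq => ?_
  obtain ⟨h1, n, C, h2, h3⟩ := hfin.mem_toFinset.1 hq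
  exact ⟨h1, Pool.Agent.Lib.MP_68c55c_lc.exists_adm C h3 h2⟩

end Pool.Agent.Results.MP_68c55c_lc.SparseSizesHalf
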