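import Pool.Agent.Lib.MP_68c55c_lc.Jac

set_option autoImplicit false

namespace Pool.Agent.Results.MP_68c55c_lc.SphereSize

open Pool.Agent.Lib.MP_68c55c_lc

/-- Over an alphabet whose size `q` is not a prime power, let `V = q ^ n / |C|` for a perfect
2-code `C` with at least two words.  If `p * q ^ 2` divides `2 * V` for every prime `p ≥ 5` such
that `p` divides `q` and `p * q ^ 2` divides `q ^ 2 + 4 * (q - 1) * (n - 2)`, then `q = 18 mod 24`
and `V = 2 mod 4`, or `V = 9 ^ k * (3 * m + 2)` with `k ≥ 1` the exponent of `3` in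
`q * (q - 6)`. -/
theorem result (q n V : ℕ) (h6 : 6 ≤ q) (hq : ¬ IsPrimePow q)
    (C : Finset (Fin n → Fin q))
    (hC : ∀ x : Fin n → Fin q, ∃! c : Fin n → Fin q, c ∈ C ∧ hammingDist x c ≤ 2)
    (h2 : 2 ≤ C.card) (hV : V * C.card = q ^ n)
    (hall : ∀ p : ℕ, p.Prime → 5 ≤ p → p ∣ q → p * q ^ 2 ∣ q ^ 2 + 4 * (q - 1) * (n - 2) →
      p * q ^ 2 ∣ 2 * V) :
    (q % 24 = 18 ∧ V % 4 = 2) ∨
      ∃ k m : ℕ, 1 ≤ k ∧ k = padicValNat 3 (q * (q - 6)) ∧ V = 9 ^ k * (3 * m + 2) := by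
  obtain ⟨s, x, hs, hx, e1, e2, e3, e4, e5⟩ := params_rad C hC (by omega) h2
  have e6 : C.card * (q ^ 2 * (x * (x + s))) = 2 * q ^ n := by
    obtain ⟨w, hw⟩ := Int.even_mul_pred_self (n : ℤ)
    have hL : LL q n 0 = 2 * (1 + n * (q - 1) + w * (q - 1) ^ 2) := by
      unfold LL; linear_combination ((q : ℤ) - 1) ^ 2 * hw
    have hM := (lloyd C hC (by omega) (by have := three_le C hC h2; omega) _ hL).1
    have e1' : 4 * (x : ℤ) + 2 * s + q = q * s ^ 2 + 6 := by exact_mod_cast e1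
    have f1 : 2 * ((q : ℤ) * (2 * x + s)) = 2 * (2 * n * (q - 1) + 4 - q) := by
      linear_combination (q : ℤ) * e1' - e2
    have f2 : 16 * LL q n 0 = 16 * (q ^ 2 * (x * (x + s))) := by
      unfold LL
      linear_combination - 4 * e2 -
        2 * ((q : ℤ) * (2 * x + s) + (2 * n * (q - 1) + 4 - q)) * f1
    have f3 : (q : ℤ) ^ 2 * (x * (x + s)) = 2 * (1 + n * (q - 1) + w * (q - 1) ^ 2) := by linarith
    zify
    rw [f3, ← hM]; ring
  have q0 : 0 < q := by omega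
  have e7 : q ^ 2 * (x * (x + s)) = 2 * V :=
    Nat.eq_of_mul_eq_mul_left (show 0 < C.card by omega) (by rw [e6, ← hV]; ring)
  have e8 : q ^ 2 + 4 * (q - 1) * (n - 2) = q ^ 2 * s ^ 2 := by
    have := three_le C hC h2
    zify [show 1 ≤ q by omega, show 2 ≤ n by omega]
    linear_combination e2
  refine (Jac.arith2 hq h6 hs e1 e2 e3 (fun p hp hd => ?_) e7 fun p hp _ hd hp2 => ?_).2
  · rcases hp.dvd_mul.1 (hd.trans e4) with h | h
    · rcases hp.dvd_mul.1 ((h.mul_right _).trans e3) with h | h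
      exacts [h.mul_right _, (hp.dvd_of_dvd_pow h).mul_left _]
    · exact (hp.dvd_of_dvd_pow (h.trans e5)).mul_left _
  · obtain ⟨w, hw⟩ := hall p hp ‹_› hd (by
      rw [e8, mul_comm]; exact Nat.mul_dvd_mul_left _ (dvd_pow hp2 two_ne_zero))
    exact ⟨w, Nat.eq_of_mul_eq_mul_left (show 0 < q ^ 2 by positivity) (by rw [e7, hw]; ring)⟩

end Pool.Agent.Results.MP_68c55c_lc.SphereSize
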