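import Pool.Agent.Lib.MP_68c55c_lc.TwoPrimes

set_option autoImplicit false

namespace Pool.Agent.Results.MP_68c55c_lc.TwoPrimes

/-- If the alphabet size has exactly two distinct prime factors, a perfect 2-error-correcting
code has at most one codeword. -/
theorem result (q n : ℕ) (hq : q.primeFactors.card = 2) (C : Finset (Fin n → Fin q))
    (hC : ∀ x : Fin n → Fin q, ∃! c : Fin n → Fin q, c ∈ C ∧ hammingDist x c ≤ 2) :
    C.card ≤ 1 := by
  by_contra hcard
  obtain ⟨p1, p2, hne, hp⟩ := Finset.card_eq_two.1 hq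
  have h1 : p1 ∈ q.primeFactors := by rw [hp]; simp
  have h2 : p2 ∈ q.primeFactors := by rw [hp]; simp
  obtain ⟨hp1, hd1, hq0⟩ := Nat.mem_primeFactors.1 h1
  obtain ⟨hp2, hd2, -⟩ := Nat.mem_primeFactors.1 h2
  have hfac : q = p1 ^ q.factorization p1 * p2 ^ q.factorization p2 := by
    conv_lhs => rw [← Nat.prod_factorization_pow_eq_self hq0]
    rw [Finsupp.prod, Nat.support_factorization, hp, Finset.prod_pair hne]
  have hq2 : 2 ≤ q := hp1.two_le.trans (Nat.le_of_dvd (Nat.pos_of_ne_zero hq0) hd1)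
  obtain ⟨s, x, hs, -, e1, e2, e3, e4⟩ :=
    Pool.Agent.Lib.MP_68c55c_lc.params C hC hq2 (by omega)
  exact Pool.Agent.Lib.MP_68c55c_lc.two_primes hp1 hp2 hne
    (hp1.factorization_pos_of_dvd hq0 hd1) (hp2.factorization_pos_of_dvd hq0 hd2) hfac hs
    e1 e2 e3 e4

end Pool.Agent.Results.MP_68c55c_lc.TwoPrimes
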